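import Mathlib

namespace Pool.Agent.H.MP_47eac2_co

open Finset

/-- triangular pattern -/
def Pat {V : Type} (G : SimpleGraph V) (k : ℕ) (v x : ℕ → V) : Prop :=
  (∀ i < k, ¬ G.Adj (v i) (x i)) ∧ ∀ i j, i < j → j < k → G.Adj (v j) (x i)

variable {V : Type}

theorem Pat.x_inj {G : SimpleGraph V} {k : ℕ} {v x : ℕ → V} (h : Pat G k v x) {i j : ℕ}
    (hi : i < k) (hj : j < k) (e : x i = x j) : i = j := by
  rcases lt_trichotomy i j with l | l | l
  · exact absurd (e ▸ h.2 i j l hj) (h.1 j hj)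
  · exact l
  · exact absurd (e ▸ h.2 j i l hi) (h.1 i hi)

theorem Pat.v_inj {G : SimpleGraph V} {k : ℕ} {v x : ℕ → V} (h : Pat G k v x) {i j : ℕ}
    (hi : i < k) (hj : j < k) (e : v i = v j) : i = j := by
  rcases lt_trichotomy i j with l | l | l
  · exact absurd (e ▸ h.2 i j l hj) (h.1 i hi)
  · exact l
  · exact absurd (e ▸ h.2 j i l hi) (h.1 j hj)

theorem Pat.card_mix [DecidableEq V] {G : SimpleGraph V} {k : ℕ} {v x : ℕ → V} (h : Pat G k v x)
    {p : ℕ} (hp : p ≤ k) : ((range p).image x ∪ (Ico p k).image v).card = k := by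
  rw [card_union_of_disjoint, card_image_of_injOn, card_image_of_injOn, card_range, Nat.card_Ico]
  · omega
  · intro i hi j hj e
    exact h.v_inj (mem_Ico.1 hi).2 (mem_Ico.1 hj).2 e
  · intro i hi j hj e
    have := mem_range.1 hi
    have := mem_range.1 hj
    exact h.x_inj (by omega) (by omega) e
  · rw [disjoint_left]
    intro a ha hb
    obtain ⟨i, hi, rfl⟩ := mem_image.1 ha
    obtain ⟨j, hj, e⟩ := mem_image.1 hb
    have := h.2 i j (by have := mem_range.1 hi; have := (mem_Ico.1 hj).1; omega) (mem_Ico.1 hj).2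
    exact this.ne e

theorem Pat.le_card [Fintype V] {G : SimpleGraph V} {k : ℕ} {v x : ℕ → V} (h : Pat G k v x) :
    k ≤ Fintype.card V := by
  classical
  rw [← h.card_mix le_rfl]
  exact card_le_univ _

theorem upper [Fintype V] {G : SimpleGraph V} {k l : ℕ} {v x w y : ℕ → V} (h : Pat G k v x)
    (h' : Pat Gᶜ l w y) : k + l ≤ Fintype.card V + 2 := by
  classical
  by_contra hcon
  push Not at hcon
  let X : ℕ → Finset V := fun p => (range p).image x
  let U : ℕ → Finset V := fun p => (Ico p k).image v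
  let Y : ℕ → Finset V := fun q => (range q).image y
  let W : ℕ → Finset V := fun q => (Ico q l).image w
  have hXU : ∀ p, ∀ a ∈ X p, ∀ b ∈ U p, G.Adj b a := by
    intro p a ha b hb
    obtain ⟨i, hi, rfl⟩ := mem_image.1 ha
    obtain ⟨j, hj, rfl⟩ := mem_image.1 hb
    exact h.2 i j (by have := mem_range.1 hi; have := (mem_Ico.1 hj).1; omega) (mem_Ico.1 hj).2
  have hYW : ∀ q, ∀ a ∈ Y q, ∀ b ∈ W q, ¬ G.Adj b a := by
    intro p a ha b hb
    obtain ⟨i, hi, rfl⟩ := mem_image.1 ha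
    obtain ⟨j, hj, rfl⟩ := mem_image.1 hb
    exact (h'.2 i j (by have := mem_range.1 hi; have := (mem_Ico.1 hj).1; omega)
      (mem_Ico.1 hj).2).2
  have hbig : ∀ p ≤ k, ∀ q ≤ l, 3 ≤ ((X p ∪ U p) ∩ (Y q ∪ W q)).card := by
    intro p hp q hq
    have h1 : (X p ∪ U p).card = k := h.card_mix hp
    have h2 : (Y q ∪ W q).card = l := h'.card_mix hq
    have h3 := card_union_add_card_inter (X p ∪ U p) (Y q ∪ W q)
    have h4 := card_le_univ ((X p ∪ U p) ∪ (Y q ∪ W q))
    omega
  have hUanti : ∀ p p', p ≤ p' → U p' ⊆ U p := fun p p' hp =>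
    image_subset_image (Ico_subset_Ico_left hp)
  -- dichotomy
  have hdich : ∀ q ≤ l, ∃ p, (Disjoint (U p) (W q) ∧ 2 ≤ (U p ∩ Y q).card) ∨
      (Disjoint (U p) (Y q) ∧ 2 ≤ (U p ∩ W q).card) := by
    intro q hq
    have hex : ∃ p, (X p ∩ (Y q ∪ W q)).Nonempty := by
      refine ⟨k, ?_⟩
      have := hbig k le_rfl q hq
      have e : U k = ∅ := by simp [U]
      rw [e, union_empty] at this
      exact card_pos.1 (by omega)
    have hexk : Nat.find hex ≤ k := by
      refine Nat.find_min' hex ?_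
      have := hbig k le_rfl q hq
      have e : U k = ∅ := by simp [U]
      rw [e, union_empty] at this
      exact card_pos.1 (by omega)
    have hspec := Nat.find_spec hex
    obtain ⟨p, hp⟩ : ∃ p, Nat.find hex = p + 1 := by
      rcases Nat.eq_zero_or_pos (Nat.find hex) with h0 | h0
      · rw [h0] at hspec; simp [X] at hspec
      · exact ⟨Nat.find hex - 1, by omega⟩
    have hmin := Nat.find_min hex (m := p) (by omega)
    rw [hp] at hspec hexk
    have hone : (X (p + 1) ∩ (Y q ∪ W q)).card ≤ 1 := by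
      refine le_trans (card_le_card (t := {x p}) ?_) (by simp)
      intro a ha
      obtain ⟨ha1, ha2⟩ := mem_inter.1 ha
      obtain ⟨i, hi, rfl⟩ := mem_image.1 ha1
      rcases Nat.lt_succ_iff_lt_or_eq.1 (mem_range.1 hi) with hi | hi
      · exact absurd ⟨x i, mem_inter.2 ⟨mem_image_of_mem _ (mem_range.2 hi), ha2⟩⟩ hmin
      · rw [hi]; exact mem_singleton_self _
    have htwo : 2 ≤ (U (p + 1) ∩ (Y q ∪ W q)).card := by
      have h1 := hbig (p + 1) hexk q hq
      rw [union_inter_distrib_right] at h1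
      have := card_union_le (X (p + 1) ∩ (Y q ∪ W q)) (U (p + 1) ∩ (Y q ∪ W q))
      omega
    obtain ⟨z, hz⟩ := hspec
    obtain ⟨hz1, hz2⟩ := mem_inter.1 hz
    refine ⟨p + 1, ?_⟩
    rw [inter_union_distrib_left] at htwo
    rcases mem_union.1 hz2 with hz2 | hz2
    · have hd : Disjoint (U (p + 1)) (W q) := disjoint_left.2 fun b hb hb' =>
        hYW q z hz2 b hb' (hXU _ z hz1 b hb)
      rw [disjoint_iff_inter_eq_empty.1 hd, union_empty] at htwo
      exact Or.inl ⟨hd, htwo⟩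
    · have hd : Disjoint (U (p + 1)) (Y q) := disjoint_left.2 fun b hb hb' =>
        hYW q b hb' z hz2 (hXU _ z hz1 b hb).symm
      rw [disjoint_iff_inter_eq_empty.1 hd, empty_union] at htwo
      exact Or.inr ⟨hd, htwo⟩
  have hind : ∀ q ≤ l, ∃ p, Disjoint (U p) (Y q) ∧ 2 ≤ (U p ∩ W q).card := by
    intro q
    induction q with
    | zero =>
      intro hq
      obtain ⟨p, h1 | h1⟩ := hdich 0 hq
      · simp [Y] at h1
      · exact ⟨p, h1⟩
    | succ q ih =>
      intro hq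
      obtain ⟨p, hp1, hp2⟩ := ih (by omega)
      obtain ⟨p', h1 | h1⟩ := hdich (q + 1) hq
      · exfalso
        obtain ⟨a, ha, hane⟩ := exists_mem_ne (s := U p ∩ W q) (by omega) (w q)
        obtain ⟨b, hb, hbne⟩ := exists_mem_ne (s := U p' ∩ Y (q + 1)) (by omega) (y q)
        obtain ⟨ha1, ha2⟩ := mem_inter.1 ha
        obtain ⟨hb1, hb2⟩ := mem_inter.1 hb
        have ha3 : a ∈ W (q + 1) := by
          obtain ⟨j, hj, rfl⟩ := mem_image.1 ha2
          refine mem_image_of_mem _ (mem_Ico.2 ⟨?_, (mem_Ico.1 hj).2⟩)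
          rcases (mem_Ico.1 hj).1.eq_or_lt with e | e
          · exact absurd (by rw [e]) hane
          · exact e
        have hb3 : b ∈ Y q := by
          obtain ⟨j, hj, rfl⟩ := mem_image.1 hb2
          refine mem_image_of_mem _ (mem_range.2 ?_)
          rcases Nat.lt_succ_iff_lt_or_eq.1 (mem_range.1 hj) with e | e
          · exact e
          · exact absurd (by rw [e]) hbne
        rcases le_total p p' with hle | hle
        · exact disjoint_left.1 hp1 (hUanti _ _ hle hb1) hb3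
        · exact disjoint_left.1 h1.1 (hUanti _ _ hle ha1) ha3
      · exact ⟨p', h1⟩
  obtain ⟨p, _, h2⟩ := hind l le_rfl
  simp [W] at h2

theorem complete_of_pat [Fintype V] {G : SimpleGraph V} {v x : ℕ → V}
    (h : Pat G (Fintype.card V) v x) (a b : V) (hab : a ≠ b) : G.Adj a b := by
  classical
  set n := Fintype.card V with hn
  have hall : ∀ p ≤ n, (range p).image x ∪ (Ico p n).image v = univ := fun p hp =>
    eq_univ_of_card _ (h.card_mix hp)
  have hvx : ∀ p < n, v p = x p := by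
    intro p hp
    have h1 := hall (p + 1) hp
    have : v p ∈ (range (p + 1)).image x ∪ (Ico (p + 1) n).image v := h1 ▸ mem_univ _
    rcases mem_union.1 this with h2 | h2
    · obtain ⟨i, hi, e⟩ := mem_image.1 h2
      rcases Nat.lt_succ_iff_lt_or_eq.1 (mem_range.1 hi) with hi | hi
      · exact absurd e.symm (h.2 i p hi hp).ne
      · rw [← e, hi]
    · obtain ⟨j, hj, e⟩ := mem_image.1 h2
      have := h.v_inj (mem_Ico.1 hj).2 hp e
      have := (mem_Ico.1 hj).1
      omega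
  have h0 : ∀ c : V, ∃ i < n, x i = c := by
    intro c
    have : c ∈ (range n).image x ∪ (Ico n n).image v := hall n le_rfl ▸ mem_univ _
    simpa using this
  obtain ⟨i, hi, rfl⟩ := h0 a
  obtain ⟨j, hj, rfl⟩ := h0 b
  rcases lt_trichotomy i j with l | l | l
  · rw [← hvx j hj]; exact (h.2 i j l hj).symm
  · exact absurd (by rw [l]) hab
  · rw [← hvx i hi]; exact h.2 j i l hi

theorem three_le [Fintype V] {G : SimpleGraph V} {k l : ℕ} {v x w y : ℕ → V} (h : Pat G k v x)
    (h' : Pat Gᶜ l w y) (hs : Fintype.card V + 2 ≤ k + l) : 3 ≤ k := by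
  by_contra hk
  have h1 := h'.le_card
  have hk2 : k = 2 := by omega
  have hl : l = Fintype.card V := by omega
  subst hk2
  rw [hl] at h'
  have h2 := h.2 0 1 (by omega) (by omega)
  exact (complete_of_pat h' _ _ h2.ne).2 h2

theorem three_edges [Finite V] {G : SimpleGraph V} {k : ℕ} {v x : ℕ → V} (h : Pat G k v x)
    (hk : 3 ≤ k) : 3 ≤ G.edgeSet.ncard := by
  have a1 := h.2 0 1 (by omega) (by omega)
  have a2 := h.2 0 2 (by omega) (by omega)
  have a3 := h.2 1 2 (by omega) (by omega)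
  have n1 := h.1 1 (by omega)
  have hv : v 1 ≠ v 2 := fun e => n1 (e ▸ a3)
  have hx : x 0 ≠ x 1 := fun e => n1 (e ▸ a1)
  have : ({s(v 1, x 0), s(v 2, x 0), s(v 2, x 1)} : Set (Sym2 V)).ncard = 3 := by
    rw [Set.ncard_eq_three]
    refine ⟨_, _, _, ?_, ?_, ?_, rfl⟩
    · intro e
      rcases Sym2.eq_iff.1 e with e | e
      · exact hv e.1
      · exact a1.ne e.1
    · intro e
      rcases Sym2.eq_iff.1 e with e | e
      · exact hv e.1
      · exact a2.ne e.2.symm
    · intro e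
      rcases Sym2.eq_iff.1 e with e | e
      · exact hx e.2
      · exact a3.ne e.1
  rw [← this]
  refine Set.ncard_le_ncard ?_ (Set.toFinite _)
  rintro _ (rfl | rfl | rfl)
  · exact a1
  · exact a2
  · exact a3

theorem chain_iff [Nonempty V] (G : SimpleGraph V) (k : ℕ) :
    (∃ c : Fin (k + 1) → Set V, StrictMono c ∧
      ∀ i, ∃ W : Set V, c i = {a | ∀ w ∈ W, G.Adj w a}) ↔ ∃ v x, Pat G k v x := by
  constructor
  · rintro ⟨c, hc, hW⟩
    choose W hW using hW
    have key : ∀ i : ℕ, ∃ v x : V, ∀ hi : i < k, x ∈ c ⟨i + 1, by omega⟩ ∧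
        v ∈ W ⟨i, by omega⟩ ∧ ¬ G.Adj v x := by
      intro i
      by_cases hi : i < k
      · have hlt : c ⟨i, by omega⟩ < c ⟨i + 1, by omega⟩ := hc (by simp [Fin.lt_def])
        obtain ⟨x, hx1, hx2⟩ := Set.exists_of_ssubset hlt
        rw [hW] at hx2
        simp only [Set.mem_ofPred_eq, not_forall] at hx2
        obtain ⟨v, hv1, hv2⟩ := hx2
        exact ⟨v, x, fun _ => ⟨hx1, hv1, hv2⟩⟩
      · exact ⟨Classical.arbitrary V, Classical.arbitrary V, fun h => absurd h hi⟩
    choose v x hvx using key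
    refine ⟨v, x, fun i hi => (hvx i hi).2.2, fun i j hij hj => ?_⟩
    have h1 := (hvx i (by omega)).1
    have h2 : c ⟨i + 1, by omega⟩ ≤ c ⟨j, by omega⟩ := hc.monotone (by simp [Fin.le_def]; omega)
    have h3 := h2 h1
    rw [hW] at h3
    exact h3 _ (hvx j hj).2.1
  · rintro ⟨v, x, h⟩
    refine ⟨fun i => {a | ∀ w ∈ v '' {j | i.1 ≤ j ∧ j < k}, G.Adj w a}, ?_, fun i => ⟨_, rfl⟩⟩
    rw [Fin.strictMono_iff_lt_succ]
    intro i
    refine ⟨fun a ha w hw => ?_, fun hsub => ?_⟩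
    · obtain ⟨j, hj, rfl⟩ := hw
      refine ha _ ⟨j, ⟨?_, hj.2⟩, rfl⟩
      have := hj.1
      simp only [Fin.val_succ, Fin.val_castSucc] at this ⊢
      omega
    · refine h.1 i i.2 (hsub (a := x i) ?_ _ ⟨i, ⟨by simp, i.2⟩, rfl⟩)
      rintro _ ⟨j, hj, rfl⟩
      exact h.2 i j (by have := hj.1; simp only [Fin.val_succ] at this; omega) hj.2

/-- path on four vertices plus isolated vertices -/
def pathG (m : ℕ) : SimpleGraph (Fin (m + 4)) where
  Adj a b := (a.1 + 1 = b.1 ∨ b.1 + 1 = a.1) ∧ a.1 < 4 ∧ b.1 < 4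
  symm := ⟨fun a b h => ⟨h.1.symm, h.2.2, h.2.1⟩⟩
  loopless := ⟨fun a h => by omega⟩

theorem pathG_pat (m : ℕ) : ∃ v x, Pat (pathG m) 3 v x := by
  refine ⟨fun i => if i = 0 then ⟨1, by omega⟩ else if i = 1 then ⟨0, by omega⟩ else ⟨2, by omega⟩,
    fun i => if i = 0 then ⟨1, by omega⟩ else if i = 1 then ⟨3, by omega⟩ else ⟨2, by omega⟩,
    fun i hi => ?_, fun i j hij hj => ?_⟩
  · interval_cases i <;> simp [pathG]
  · interval_cases j <;> interval_cases i <;> simp [pathG]

theorem pathG_pat' (m : ℕ) : ∃ v x, Pat (pathG m)ᶜ (m + 3) v x := by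
  refine ⟨fun i => ⟨if i = 0 then 0 else if i = 1 then 2 else min (i + 1) (m + 3),
      by split_ifs <;> omega⟩,
    fun i => ⟨if i = 0 then 0 else if i = 1 then 1 else min (i + 1) (m + 3),
      by split_ifs <;> omega⟩, fun i hi => ?_, fun i j hij hj => ?_⟩
  · simp only [SimpleGraph.compl_adj, pathG, ne_eq, Fin.mk.injEq]
    split_ifs <;> omega
  · simp only [SimpleGraph.compl_adj, pathG, ne_eq, Fin.mk.injEq]
    split_ifs <;> first | omega | (simp; done) | (simp; omega)

theorem pathG_edges (m : ℕ) : (pathG m).edgeSet.ncard ≤ 3 := by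
  have : (pathG m).edgeSet ⊆ {s(⟨0, by omega⟩, ⟨1, by omega⟩), s(⟨1, by omega⟩, ⟨2, by omega⟩),
      s(⟨2, by omega⟩, ⟨3, by omega⟩)} := by
    intro e he
    induction e using Sym2.ind with
    | _ a b =>
      have h : (a.1 + 1 = b.1 ∨ b.1 + 1 = a.1) ∧ a.1 < 4 ∧ b.1 < 4 := he
      simp only [Set.mem_insert_iff, Set.mem_singleton_iff, Sym2.eq_iff, Fin.ext_iff]
      omega
  refine (Set.ncard_le_ncard this (Set.toFinite _)).trans ?_
  refine (Set.ncard_insert_le _ _).trans ?_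
  have := Set.ncard_insert_le (s(⟨1, by omega⟩, ⟨2, by omega⟩) : Sym2 (Fin (m + 4)))
    {s(⟨2, by omega⟩, ⟨3, by omega⟩)}
  rw [Set.ncard_singleton] at this
  omega

theorem bot_pat (m : ℕ) : (∃ v x, Pat (⊥ : SimpleGraph (Fin (m + 1))) 1 v x) ∧
    ∃ v x, Pat (⊥ : SimpleGraph (Fin (m + 1)))ᶜ (m + 1) v x := by
  refine ⟨⟨fun _ => 0, fun _ => 0, fun i _ => by simp, fun i j h1 h2 => by omega⟩,
    ⟨fun i => ⟨min i m, by omega⟩, fun i => ⟨min i m, by omega⟩, fun i _ => by simp,
      fun i j h1 h2 => ?_⟩⟩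
  simp only [compl_bot, SimpleGraph.top_adj, ne_eq, Fin.mk.injEq]
  omega

end Pool.Agent.H.MP_47eac2_co
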